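import Pool.Agent.Helper91.GU.StH

/-!
# Project GU (MP_b1e6de_al): module H1c (dimension modulo minimal primes)
-/

set_option autoImplicit false

namespace Pool.Agent.Helper7.GU

universe u

open Pool.Agent.Helper91.GU

theorem hH1c : StH1c.{u} := by
  intro A _ N h
  rw [ringKrullDim, Order.krullDim]
  refine iSup_le fun l => ?_
  obtain ⟨P0, hP0, hle⟩ := Ideal.exists_minimalPrimes_le (J := l.head.asIdeal)
    (I := (⊥ : Ideal A)) bot_le
  have h1 := h P0 hP0
  rw [ringKrullDim_quotient] at h1
  have hmem : ∀ i : Fin (l.length + 1), l i ∈ PrimeSpectrum.zeroLocus (P0 : Set A) := by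
    intro i
    have h2 : l.head ≤ l i := LTSeries.head_le l i
    exact fun x hx => h2 (hle hx)
  let l' : LTSeries (PrimeSpectrum.zeroLocus (R := A) (P0 : Set A)) :=
    { length := l.length
      toFun := fun i => ⟨l i, hmem i⟩
      step := fun i => l.step i }
  exact (Order.LTSeries.length_le_krullDim l').trans h1

end Pool.Agent.Helper7.GU
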